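import Pool.Agent.Helper234.Exact.Y9

set_option autoImplicit false
open Pool.Agent.Helper234.Nuc

namespace Pool.Agent.Results.MP_d99be0_an.ExactNotInNuclear

universe u

/-- Exactness of `A` as nuclear embeddability: some injective *-homomorphism of `A` into a C*-algebra `B` is a
point-norm limit of contractive completely positive maps factoring through finite-dimensional C*-algebras. -/
def NuclearlyEmbeddable (A : Type) [NonUnitalCStarAlgebra A] : Prop :=
  ∃ (B : Type) (_ : NonUnitalCStarAlgebra B) (π : A →⋆ₙₐ[ℂ] B), Function.Injective π ∧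
    ∀ (F : Finset A) (ε : ℝ), 0 < ε →
      ∃ (D : Type) (_ : CStarAlgebra D) (_ : FiniteDimensional ℂ D)
        (φ : A →ₗ[ℂ] D) (ψ : D →ₗ[ℂ] B),
        (∀ a, ‖φ a‖ ≤ ‖a‖) ∧ (∀ d, ‖ψ d‖ ≤ ‖d‖) ∧
        (∀ (n : ℕ) (y : Matrix (Fin n) (Fin n) A),
          ∃ z : Matrix (Fin n) (Fin n) D, (star y * y).map φ = star z * z) ∧
        (∀ (n : ℕ) (y : Matrix (Fin n) (Fin n) D),
          ∃ z : Matrix (Fin n) (Fin n) B, (star y * y).map ψ = star z * z) ∧
        ∀ a ∈ F, ‖ψ (φ a) - π a‖ < ε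

/-- There is a nonseparable exact C*-algebra which does not embed in any nuclear C*-algebra, of any universe. -/
theorem result : ∃ (A : Type) (_ : NonUnitalCStarAlgebra A), ¬ TopologicalSpace.SeparableSpace A ∧
    NuclearlyEmbeddable A ∧
    ∀ (U : Type u) [NonUnitalCStarAlgebra U], IsNuclear U → ∀ f : A →⋆ₙₐ[ℂ] U, ¬ Function.Injective f :=
  have hd : 0 < 16384 := by norm_num
  ⟨Pool.Agent.Helper234.Exact.EE 16384 Pool.Agent.Helper234.Exact.S0, inferInstance,
    Pool.Agent.Helper234.Exact.not_separable 16384 _ hd, Pool.Agent.Helper234.Exact.exact_EE 16384 _ hd,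
    fun _ _ hU f hf => Pool.Agent.Helper234.Exact.no_embed hU f hf⟩

end Pool.Agent.Results.MP_d99be0_an.ExactNotInNuclear
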